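import Mathlib
import Pool.Agent.X126.LC.Main

/-! # MP_0ea415_nt: a counterexample to Littlewood's conjecture has uncountably many limit points
of `q_k β` modulo one

Let `α, β` be real numbers, let `C` be a constant and let `Q 0, Q 1, …` be a sequence of positive
integers tending to infinity such that (for large `k`) `Q (k+1) ≤ C Q k` and `Q k ‖Q k α‖ ≤ C`. For
instance, if `α` is badly approximable, the `Q k` can be the denominators of the convergents of `α`,
or every tenth of them, or arbitrary multiples of these by bounded factors, in any order that keeps
them increasing.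

We show: if the points `Q k β` of the circle `ℝ/ℤ` have only countably many limit points, then
Littlewood's conjecture holds for `(α, β)`, and more generally for all pairs
`(r + s α, r' + s' β + t' α)` with rational `r, s, r', s', t'`.

For the denominators `q_k` of the convergents of an irrational number `α` (`den α (k+1) = q_k`) no
further assumption is needed. So if `(α, β)` is a counterexample to Littlewood's conjecture, then
the sequence `q_k β` modulo one has uncountably many limit points.

The proof: the closed set of the limit points of the pairs `(q_k β, q_{k+1} β)` is mapped into itself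
by a multivalued map, the value at a point being one of the finitely many hyperbolic matrices
`(x, y) ↦ (y, a y + x)`. A minimal closed subset of this kind has, if it is countable, an isolated
point, and this point returns to itself. It is then a torsion point, and a bounded multiple of
`q_k β` is close to an integer for infinitely many `k`. -/

set_option autoImplicit false

open Filter Topology

namespace Pool.Agent.Results.MP_0ea415_nt.CountableLimitPoints

open Pool.Agent.H380R2.LC

/-- Littlewood's conjecture for the pair `(α, β)` (the form of the frozen statement). -/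
def Littlewood (α β : ℝ) : Prop :=
  ∀ ε : ℝ, 0 < ε → ∀ N : ℕ, ∃ q : ℕ, N ≤ q ∧ 0 < q ∧
    (q : ℝ) * |(q : ℝ) * α - (round ((q : ℝ) * α) : ℝ)|
      * |(q : ℝ) * β - (round ((q : ℝ) * β) : ℝ)| < ε

/-- the limit points in `ℝ/ℤ` of the sequence `Q k * β`, `k → ∞` -/
def LimitPoints (Q : ℕ → ℝ) (β : ℝ) : Set UnitAddCircle :=
  {t | MapClusterPt t atTop (fun k : ℕ => ((Q k * β : ℝ) : UnitAddCircle))}

/-- **Main result.** -/
theorem result :
    -- good approximations
    (∀ (α β C : ℝ) (Q : ℕ → ℕ), Tendsto Q atTop atTop →
      (∀ᶠ k in atTop, (Q (k + 1) : ℝ) ≤ C * Q k) →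
      (∀ᶠ k in atTop, (Q k : ℝ) * |(Q k : ℝ) * α - (round ((Q k : ℝ) * α) : ℝ)| ≤ C) →
      (LimitPoints (fun k => Q k) β).Countable →
      ∀ r s r' s' t' : ℚ, Littlewood (r + s * α) (r' + s' * β + t' * α)) ∧
    -- the denominators of the convergents
    (∀ α β : ℝ, Irrational α → (LimitPoints (fun k => den α k) β).Countable →
      ∀ r s r' s' t' : ℚ, Littlewood (r + s * α) (r' + s' * β + t' * α)) :=
  ⟨fun α β C Q hQ h1 h2 hL r s r' s' t' => X126.LC.main α β Q hQ C h1 h2 hL r s r' s' t',
    fun α β hα hL r s r' s' t' => X126.LC.main_conv α β hα hL r s r' s' t'⟩

end Pool.Agent.Results.MP_0ea415_nt.CountableLimitPoints
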