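import Mathlib
import Pool.Agent.X87.CSD.LwConeW

/-! # MP_0ea415_nt: ratios of the denominators at a common place

Let `α, β` be real numbers. A place is a pair `(u, v)`; the denominators at this place (up to the
constant `R`) are the `q` with `q < R exp(u + v)`, `⟨qα⟩ < R exp(-u)`, `⟨qβ⟩ < R exp(-v)`. We show
that for Littlewood's conjecture one only has to control the local ratios `q / q'` (or `⟨qα⟩ / ⟨q'α⟩`,
or `⟨qβ⟩ / ⟨q'β⟩`) of two denominators `q, q'` at a common place.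

Call a set `S` of real numbers lacunary if for all `R > 1` and `ε > 0` there is `η < ε` such that no
difference of two elements of `S` has absolute value in `[η, R η]`. Countable sets are countable
unions of lacunary sets (single points). Let `C 0, C 1, …` be lacunary sets.

1. Let `W` be a set of places which contains arbitrarily long segments in the direction `(1, 1)`
   (respectively `(-2, 1)`, `(1, -2)`), arbitrarily deep in the quadrant. If for all `R` the limit
   points of the ratios `q / q'` (respectively `⟨qα⟩ / ⟨q'α⟩`, `⟨qβ⟩ / ⟨q'β⟩`) of two large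
   denominators `q, q'` at a common place of `W` lie in the union of the `C n`, then
   `liminf q ⟨qα⟩ ⟨qβ⟩ = 0`.
2. So it is enough to consider the limit points of the ratios `q / q'` of two large denominators
   with `q ⟨qα⟩ ^ 2 < R`, `q ⟨qβ⟩ ^ 2 < R`, the same for `q'`, and `q < R q'`, `q' < R q`: if these
   lie in the union of the `C n` for all `R`, then `liminf q ⟨qα⟩ ⟨qβ⟩ = 0`.
3. For any single `0 < s < 1` and `δ > 0` and each of the three sizes `q`, `⟨qα⟩`, `⟨qβ⟩` it is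
   enough to consider the limit points of its ratios for two large denominators `q, q'` whose three
   sizes agree up to the factor `R` and which satisfy `q ^ (-s-δ) < ⟨qα⟩ < q ^ (-s+δ)` and the same
   for `q'`, for all `R`. -/

set_option autoImplicit false

open Filter Topology

namespace Pool.Agent.Results.MP_0ea415_nt.RatiosAlongWindows

/-- the distance to the nearest integer -/
noncomputable def dist (x : ℝ) : ℝ := |x - (round x : ℝ)|

/-- `q ⟨qα⟩ ⟨qβ⟩` -/
noncomputable def littlewood (α β : ℝ) (q : ℕ) : ℝ := (q : ℝ) * dist (q * α) * dist (q * β)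

/-- Littlewood's conjecture holds for `(α, β)`. -/
def Holds (α β : ℝ) : Prop :=
  ∀ ε : ℝ, 0 < ε → ∀ N : ℕ, ∃ q : ℕ, N ≤ q ∧ 0 < q ∧ littlewood α β q < ε

/-- The differences of `S` skip arbitrarily long ranges of scales, arbitrarily close to zero. -/
def Lacunary (S : Set ℝ) : Prop :=
  ∀ R : ℝ, 1 < R → ∀ ε : ℝ, 0 < ε → ∃ η : ℝ, 0 < η ∧ η < ε ∧
    ∀ s ∈ S, ∀ t ∈ S, |s - t| < η ∨ R * η < |s - t|

/-- the three sizes `q`, `⟨qα⟩`, `⟨qβ⟩` of a denominator -/
noncomputable def size (α β : ℝ) (k : Fin 3) (q : ℕ) : ℝ :=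
  ![(q : ℝ), dist (q * α), dist (q * β)] k

/-- the three directions -/
def direction (k : Fin 3) : ℝ × ℝ := ![(1, 1), (-2, 1), (1, -2)] k

/-- `W` contains arbitrarily long segments in direction `k`, arbitrarily deep in the quadrant. -/
def LongSegments (W : Set (ℝ × ℝ)) (k : Fin 3) : Prop :=
  ∀ n : ℕ, ∃ u v : ℝ, 3 * (n : ℝ) ≤ u ∧ 3 * (n : ℝ) ≤ v ∧
    ∀ s : ℝ, |s| ≤ n → (u + s * (direction k).1, v + s * (direction k).2) ∈ W

/-- the denominators at the place `(u, v)` -/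
def At (α β R u v : ℝ) : Set ℕ :=
  {q | (q : ℝ) < R * Real.exp (u + v) ∧
    dist (q * α) < R * Real.exp (-u) ∧ dist (q * β) < R * Real.exp (-v)}

/-- The limit points of the ratios of the size `k` over the pairs of large denominators in a
relation `P`. -/
def LimitRatios (α β : ℝ) (k : Fin 3) (P : ℕ → ℕ → Prop) : Set ℝ :=
  {t | ∀ N : ℕ, ∀ ε : ℝ, 0 < ε → ∃ q q' : ℕ, N ≤ q ∧ N ≤ q' ∧ P q q' ∧
    |size α β k q / size α β k q' - t| < ε}

/-- Main theorem. -/
theorem result (α β : ℝ) (C : ℕ → Set ℝ) (hC : ∀ n, Lacunary (C n)) :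
    -- 1. windows
    (∀ (k : Fin 3) (W : Set (ℝ × ℝ)), LongSegments W k →
      (∀ R : ℝ, LimitRatios α β k (fun q q' => ∃ u v : ℝ, (u, v) ∈ W ∧ q ∈ At α β R u v ∧
        q' ∈ At α β R u v) ⊆ ⋃ n, C n) → Holds α β) ∧
    -- 2. balanced approximations
    ((∀ R : ℝ, LimitRatios α β 0 (fun q q' => (q : ℝ) < R * q' ∧ (q' : ℝ) < R * q ∧
        q * dist (q * α) ^ 2 < R ∧ q * dist (q * β) ^ 2 < R ∧
        q' * dist (q' * α) ^ 2 < R ∧ q' * dist (q' * β) ^ 2 < R) ⊆ ⋃ n, C n) → Holds α β) ∧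
    -- 3. exponents
    (∀ s δ : ℝ, 0 < s → s < 1 → 0 < δ → ∀ k : Fin 3,
      (∀ R : ℝ, LimitRatios α β k (fun q q' =>
        (∀ l, size α β l q < R * size α β l q' ∧ size α β l q' < R * size α β l q) ∧
        (q : ℝ) ^ (-s - δ) < dist (q * α) ∧ dist (q * α) < (q : ℝ) ^ (-s + δ) ∧
        (q' : ℝ) ^ (-s - δ) < dist (q' * α) ∧ dist (q' * α) < (q' : ℝ) ^ (-s + δ)) ⊆
          ⋃ n, C n) → Holds α β) := by
  have key : ∀ (k : Fin 3) (W : Set (ℝ × ℝ)), X87.CSD.LongSegments W k →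
      (∀ R : ℝ, X87.CSD.LimRat α β R W k ⊆ ⋃ n, C n) → Holds α β := fun k W hW h =>
    X87.CSD.window_ratios_lac hW C hC h
  refine ⟨?_, ?_, ?_⟩
  · intro k W hW h
    refine key k W (fun n => ?_) fun R => ?_
    · obtain ⟨u, v, h1, h2, h3⟩ := hW n
      exact ⟨(u, v), h1, h2, h3⟩
    · refine Set.Subset.trans ?_ (h R)
      intro t ht N ε hε
      obtain ⟨⟨u, v⟩, hp, q, hq, q', hq', h1, h2, h3⟩ := ht N ε hε
      exact ⟨q, q', h1, h2, ⟨u, v, hp, hq, hq'⟩, h3⟩
  · intro h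
    by_contra hnot
    have hnot' := hnot
    unfold Holds at hnot'
    push Not at hnot'
    obtain ⟨ε, hε, N, hN⟩ := hnot'
    apply hnot
    refine key 0 {p | p.1 = p.2} (fun n => ⟨(3 * n, 3 * n), le_rfl, le_rfl, fun s _ => ?_⟩)
      fun R => ?_
    · simp [X87.CSD.dirw]
    · refine Set.Subset.trans ?_ (h (|R| ^ 3 + |R| ^ 3 / ε))
      intro t ht N₁ ε₁ hε₁
      obtain ⟨⟨u, v⟩, hp, q, hq, q', hq', h1, h2, h3⟩ := ht (max N₁ (max N 1)) ε₁ hε₁
      have huv : u = v := hp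
      subst huv
      have hR : 0 < R := by
        by_contra hcon
        exact absurd ((abs_nonneg _).trans_lt hq.2.1)
          (not_lt.2 (mul_nonpos_of_nonpos_of_nonneg (not_lt.1 hcon) (Real.exp_pos _).le))
      rw [abs_of_pos hR]
      have hRε : 0 < R ^ 3 / ε := by positivity
      have hR3 : 0 < R ^ 3 := by positivity
      have hmain : ∀ (q : ℕ) (x : ℝ), (q : ℝ) < R * Real.exp (u + u) → 0 ≤ x →
          x < R * Real.exp (-u) → (q : ℝ) * x ^ 2 < R ^ 3 + R ^ 3 / ε := by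
        intro q x hq1 hx0 hx
        have h3 : x ^ 2 ≤ (R * Real.exp (-u)) ^ 2 := pow_le_pow_left₀ hx0 hx.le 2
        have h4 : 0 < (R * Real.exp (-u)) ^ 2 := by positivity
        have h5 : (q : ℝ) * x ^ 2 < R ^ 3 := by
          calc (q : ℝ) * x ^ 2 ≤ q * (R * Real.exp (-u)) ^ 2 :=
                mul_le_mul_of_nonneg_left h3 (Nat.cast_nonneg q)
            _ < R * Real.exp (u + u) * (R * Real.exp (-u)) ^ 2 := mul_lt_mul_of_pos_right hq1 h4
            _ = R ^ 3 * (Real.exp (u + u) * (Real.exp (-u) * Real.exp (-u))) := by ring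
            _ = R ^ 3 := by
                rw [← Real.exp_add, ← Real.exp_add]
                simp
        linarith
      have hNq : N ≤ q ∧ 0 < q ∧ N₁ ≤ q := by omega
      have hNq' : N ≤ q' ∧ 0 < q' ∧ N₁ ≤ q' := by omega
      have c1 : (q : ℝ) < R ^ 3 / ε * q' :=
        X87.CSD.dk_compare hR hε hq hq' (hN q' hNq'.1 hNq'.2.1) 0
      have c2 : (q' : ℝ) < R ^ 3 / ε * q :=
        X87.CSD.dk_compare hR hε hq' hq (hN q hNq.1 hNq.2.1) 0
      have hq0 : (0 : ℝ) ≤ q := Nat.cast_nonneg q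
      have hq'0 : (0 : ℝ) ≤ q' := Nat.cast_nonneg q'
      refine ⟨q, q', hNq.2.2, hNq'.2.2, ⟨?_, ?_, ?_, ?_, ?_, ?_⟩, h3⟩
      · nlinarith
      · nlinarith
      · exact hmain q _ hq.1 (abs_nonneg _) hq.2.1
      · exact hmain q _ hq.1 (abs_nonneg _) hq.2.2
      · exact hmain q' _ hq'.1 (abs_nonneg _) hq'.2.1
      · exact hmain q' _ hq'.1 (abs_nonneg _) hq'.2.2
  · intro s δ hs0 hs1 hδ k h
    by_contra hnot
    have hnot' := hnot
    unfold Holds at hnot'
    push Not at hnot'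
    obtain ⟨ε, hε, N, hN⟩ := hnot'
    apply hnot
    obtain ⟨W, hW, hWB⟩ := X87.CSD.near_windows hs0 hs1 hδ hε hN k
    refine key k W hW fun R => ?_
    refine Set.Subset.trans ?_ (h (|R| ^ 3 / ε))
    intro t ht N₁ ε₁ hε₁
    obtain ⟨B, hB⟩ := hWB R
    obtain ⟨z, hz, q, hq, q', hq', h1, h2, h3⟩ := ht (max N₁ (max N (B + 1))) ε₁ hε₁
    have hR : 0 < R := by
      by_contra hcon
      exact absurd ((abs_nonneg _).trans_lt hq.2.1)
        (not_lt.2 (mul_nonpos_of_nonpos_of_nonneg (not_lt.1 hcon) (Real.exp_pos _).le))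
    rw [abs_of_pos hR]
    have hNq : N ≤ q ∧ B < q ∧ N₁ ≤ q := by omega
    have hNq' : N ≤ q' ∧ B < q' ∧ N₁ ≤ q' := by omega
    obtain ⟨n1, n2⟩ := hB z hz q hq hNq.2.1
    obtain ⟨n3, n4⟩ := hB z hz q' hq' hNq'.2.1
    exact ⟨q, q', hNq.2.2, hNq'.2.2, ⟨fun l =>
      ⟨X87.CSD.dk_compare hR hε hq hq' (hN q' hNq'.1 (by omega)) l,
        X87.CSD.dk_compare hR hε hq' hq (hN q hNq.1 (by omega)) l⟩, n1, n2, n3, n4⟩, h3⟩

end Pool.Agent.Results.MP_0ea415_nt.RatiosAlongWindows
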