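import Mathlib
import Pool.Agent.X126.SU.RajM

/-! # MP_0ea415_nt: the exceptions to Littlewood's conjecture form a set of uniqueness

Fix `α`. The exceptional set of Littlewood's conjecture for `α` is the set of the `β` with
`liminf q ‖q α‖ ‖q β‖ > 0`. We show that it is small from the point of view of harmonic analysis,
in the following strong and inhomogeneous form.

Let `(α i, γ i)`, `i = 0, 1, …` be countably many pairs, with `α i` irrational or `γ i = 0`. Call `β`
good if for all `i` and all real `δ` (uncountably many `δ` at once)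
`liminf q ‖q α_i - γ_i‖ ‖q β - δ‖ = 0`. Then

* the set of the `β` that are not good is covered by countably many closed `H`-sets (Rajchman);
* it is a set of uniqueness for trigonometric series: a trigonometric series which converges to zero
  at all good `β` has all coefficients zero;
* it is a null set for every finite Rajchman measure on the circle (finite measures whose Fourier
  coefficients tend to zero, at any speed).

The proof of the second part is in `Pool.Agent.X126.SU` (theorem of Rajchman on `H`-sets and theorem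
of Bari on unions of closed sets of uniqueness, proved by Riemann's method and the method of de la
Vallée Poussin). -/

set_option autoImplicit false

open Filter Topology MeasureTheory Set

namespace Pool.Agent.Results.MP_0ea415_nt.SetOfUniqueness

/-- The inhomogeneous Littlewood statement for `(α, γ)` and `β`: for **all** real `δ` the lower limit
of `q ‖q α - γ‖ ‖q β - δ‖` is zero. -/
def Good (α γ β : ℝ) : Prop :=
  ∀ δ ε : ℝ, 0 < ε → ∀ N : ℕ, ∃ q : ℕ, N ≤ q ∧ 0 < q ∧
    (q : ℝ) * |(q : ℝ) * α - γ - (round ((q : ℝ) * α - γ) : ℝ)|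
      * |(q : ℝ) * β - δ - (round ((q : ℝ) * β - δ) : ℝ)| < ε

/-- A closed `H`-set of real numbers: for a strictly increasing sequence of natural numbers `n` the
points `n j * x` (`x ∈ E`) modulo one all avoid one and the same open arc. -/
def IsHSet (E : Set ℝ) : Prop :=
  IsClosed E ∧ ∃ n : ℕ → ℕ, StrictMono n ∧ ∃ a r : ℝ, 0 < r ∧
    ∀ x ∈ E, ∀ j, r ≤ |(n j : ℝ) * x - a - (round ((n j : ℝ) * x - a) : ℝ)|

/-- **Main result.** -/
theorem result (α γ : ℕ → ℝ) (h : ∀ i, Irrational (α i) ∨ γ i = 0) :
    -- (1) covering by `H`-sets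
    (∃ E : ℕ → Set ℝ, (∀ k, IsHSet (E k)) ∧
      ∀ β : ℝ, (∀ i, Good (α i) (γ i) β) ∨ ∃ k, β ∈ E k) ∧
    -- (2) the set of exceptions is a set of uniqueness
    (∀ c : ℤ → ℂ,
      (∀ β ∈ Ico (0 : ℝ) 1, (∀ i, Good (α i) (γ i) β) →
        Tendsto (fun N : ℕ => ∑ n ∈ Finset.Icc (-(N : ℤ)) (N : ℤ),
          c n * Complex.exp (2 * Real.pi * Complex.I * n * β)) atTop (𝓝 0)) →
      ∀ n, c n = 0) ∧
    -- (3) the set of exceptions is null for all Rajchman measures
    (∀ μ : Measure UnitAddCircle, IsFiniteMeasure μ →
      Tendsto (fun n : ℤ => ∫ x, (fourier n x : ℂ) ∂μ) cofinite (𝓝 0) →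
      ∀ᵐ x ∂μ, ∀ β : ℝ, (β : UnitAddCircle) = x → ∀ i, Good (α i) (γ i) β) := by
  refine ⟨?_, ?_, ?_⟩
  · obtain ⟨E, h1, h2⟩ := X126.SU.cover α γ h
    refine ⟨E, h1, fun β => ?_⟩
    by_cases hb : ∃ k, β ∈ E k
    · exact Or.inr hb
    · push Not at hb
      exact Or.inl (h2 β hb)
  · intro c hc
    exact X126.SU.main α γ h c hc
  · intro μ hμ hr
    exact X126.SU.main_raj α γ h hr

end Pool.Agent.Results.MP_0ea415_nt.SetOfUniqueness
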