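import Mathlib
import Pool.Agent.X87.CSD.LwCone

/-! # MP_0ea415_nt: limit values along windows, balanced approximations and exponents

Let `α, β` be real numbers. A place is a pair `(u, v)`; the denominators at this place (up to the
constant `R`) are the `q` with `q < R exp(u + v)`, `⟨qα⟩ < R exp(-u)`, `⟨qβ⟩ < R exp(-v)`. We show
that for Littlewood's conjecture one only has to control the limit values of `q ⟨qα⟩ ⟨qβ⟩` along the
denominators at the places of a thin set of places.

Call a set `S` of real numbers lacunary if for all `R > 1` and `ε > 0` there is `η < ε` such that no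
difference of two elements of `S` has absolute value in `[η, R η]`. Countable sets are countable
unions of lacunary sets (single points). Let `C 0, C 1, …` be lacunary sets and let `T > 2 / 9` (or,
more generally, let `T` be such that every product of three real linear forms in three variables of
determinant `±1` takes a value of absolute value `< T` at a nonzero integer point).

1. Let `W` be a set of places which contains arbitrarily long segments in one of the three
   directions `(1, 1)`, `(-2, 1)`, `(1, -2)`, arbitrarily deep in the quadrant (for example the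
   diagonal, or a sequence of such segments as sparse as one likes). If for all `R` the limit points
   `t < T` of `q ⟨qα⟩ ⟨qβ⟩` along the denominators `q → ∞` at the places of `W` lie in the union of
   the `C n`, then `liminf q ⟨qα⟩ ⟨qβ⟩ = 0`.
2. So it is enough to consider the limit points along the balanced approximations, i.e. along the
   `q` with `q ⟨qα⟩ ^ 2 < R` and `q ⟨qβ⟩ ^ 2 < R`, for all `R`.
3. For any single `0 < s < 1` and `δ > 0` it is enough to consider the limit points along the `q`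
   with `q ^ (-s-δ) < ⟨qα⟩ < q ^ (-s+δ)`. -/

set_option autoImplicit false

open Filter Topology

namespace Pool.Agent.Results.MP_0ea415_nt.ValuesAlongWindows

/-- the distance to the nearest integer -/
noncomputable def dist (x : ℝ) : ℝ := |x - (round x : ℝ)|

/-- `q ⟨qα⟩ ⟨qβ⟩` -/
noncomputable def littlewood (α β : ℝ) (q : ℕ) : ℝ := (q : ℝ) * dist (q * α) * dist (q * β)

/-- Littlewood's conjecture holds for `(α, β)`. -/
def Holds (α β : ℝ) : Prop :=
  ∀ ε : ℝ, 0 < ε → ∀ N : ℕ, ∃ q : ℕ, N ≤ q ∧ 0 < q ∧ littlewood α β q < ε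

/-- The differences of `S` skip arbitrarily long ranges of scales, arbitrarily close to zero. -/
def Lacunary (S : Set ℝ) : Prop :=
  ∀ R : ℝ, 1 < R → ∀ ε : ℝ, 0 < ε → ∃ η : ℝ, 0 < η ∧ η < ε ∧
    ∀ s ∈ S, ∀ t ∈ S, |s - t| < η ∨ R * η < |s - t|

/-- the limit points `t < T` of `q ⟨qα⟩ ⟨qβ⟩` along the `q` in `S` -/
def LimitValues (α β T : ℝ) (S : Set ℕ) : Set ℝ :=
  {t | t < T ∧ MapClusterPt t (atTop ⊓ 𝓟 S) (littlewood α β)}

/-- the three directions -/
def direction (k : Fin 3) : ℝ × ℝ := ![(1, 1), (-2, 1), (1, -2)] k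

/-- `W` contains arbitrarily long segments in direction `k`, arbitrarily deep in the quadrant. -/
def LongSegments (W : Set (ℝ × ℝ)) (k : Fin 3) : Prop :=
  ∀ n : ℕ, ∃ u v : ℝ, 3 * (n : ℝ) ≤ u ∧ 3 * (n : ℝ) ≤ v ∧
    ∀ s : ℝ, |s| ≤ n → (u + s * (direction k).1, v + s * (direction k).2) ∈ W

/-- the denominators at the places of `W` -/
def Denominators (α β R : ℝ) (W : Set (ℝ × ℝ)) : Set ℕ :=
  {q | ∃ u v : ℝ, (u, v) ∈ W ∧ (q : ℝ) < R * Real.exp (u + v) ∧
    dist (q * α) < R * Real.exp (-u) ∧ dist (q * β) < R * Real.exp (-v)}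

/-- Main theorem. -/
theorem result (α β T : ℝ)
    (hT : 2 / 9 < T ∨ ∀ h : Matrix (Fin 3) (Fin 3) ℝ, |h.det| = 1 →
      ∃ x : Fin 3 → ℤ, x ≠ 0 ∧ |∏ i : Fin 3, ∑ j : Fin 3, h i j * (x j : ℝ)| < T)
    (C : ℕ → Set ℝ) (hC : ∀ n, Lacunary (C n)) :
    -- 1. windows
    (∀ (k : Fin 3) (W : Set (ℝ × ℝ)), LongSegments W k →
      (∀ R : ℝ, LimitValues α β T (Denominators α β R W) ⊆ ⋃ n, C n) → Holds α β) ∧
    -- 2. balanced approximations
    ((∀ R : ℝ, LimitValues α β T {q | q * dist (q * α) ^ 2 < R ∧ q * dist (q * β) ^ 2 < R} ⊆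
      ⋃ n, C n) → Holds α β) ∧
    -- 3. exponents
    (∀ s δ : ℝ, 0 < s → s < 1 → 0 < δ →
      LimitValues α β T {q | (q : ℝ) ^ (-s - δ) < dist (q * α) ∧
        dist (q * α) < (q : ℝ) ^ (-s + δ)} ⊆ ⋃ n, C n → Holds α β) := by
  have key : ∀ (k : Fin 3) (W : Set (ℝ × ℝ)), X87.CSD.LongSegments W k →
      (∀ R : ℝ, {t : ℝ | t < T ∧ MapClusterPt t (atTop ⊓ 𝓟 (X87.CSD.DenW α β R W))
        (H715R2.fL α β)} ⊆ ⋃ n, C n) → Holds α β := fun k W hW h =>
    X87.CSD.window_values_lac hT hW C hC h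
  refine ⟨?_, ?_, ?_⟩
  · intro k W hW h
    refine key k W (fun n => ?_) fun R => ?_
    · obtain ⟨u, v, h1, h2, h3⟩ := hW n
      exact ⟨(u, v), h1, h2, h3⟩
    · refine Set.Subset.trans ?_ (h R)
      rintro t ⟨h1, h2⟩
      refine ⟨h1, h2.mono (inf_le_inf_left _ (principal_mono.2 ?_))⟩
      rintro q ⟨⟨u, v⟩, hp, hq1, hq2, hq3⟩
      exact ⟨u, v, hp, hq1, hq2, hq3⟩
  · intro h
    refine key 0 {p | p.1 = p.2} (fun n => ⟨(3 * n, 3 * n), le_rfl, le_rfl, fun s _ => ?_⟩)
      fun R => ?_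
    · simp [X87.CSD.dirw]
    · refine Set.Subset.trans ?_ (h (R ^ 3))
      rintro t ⟨h1, h2⟩
      refine ⟨h1, h2.mono (inf_le_inf_left _ (principal_mono.2 ?_))⟩
      rintro q ⟨⟨u, v⟩, hp, hq1, hq2, hq3⟩
      have huv : u = v := hp
      subst huv
      simp only at hq1 hq2 hq3
      have hR : 0 < R := by
        by_contra hcon
        exact absurd ((abs_nonneg _).trans_lt hq2)
          (not_lt.2 (mul_nonpos_of_nonpos_of_nonneg (not_lt.1 hcon) (Real.exp_pos _).le))
      have hmain : ∀ x : ℝ, 0 ≤ x → x < R * Real.exp (-u) → (q : ℝ) * x ^ 2 < R ^ 3 := by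
        intro x hx0 hx
        have h3 : x ^ 2 ≤ (R * Real.exp (-u)) ^ 2 := pow_le_pow_left₀ hx0 hx.le 2
        have h4 : 0 < (R * Real.exp (-u)) ^ 2 := by positivity
        calc (q : ℝ) * x ^ 2 ≤ q * (R * Real.exp (-u)) ^ 2 :=
              mul_le_mul_of_nonneg_left h3 (Nat.cast_nonneg q)
          _ < R * Real.exp (u + u) * (R * Real.exp (-u)) ^ 2 := mul_lt_mul_of_pos_right hq1 h4
          _ = R ^ 3 * (Real.exp (u + u) * (Real.exp (-u) * Real.exp (-u))) := by ring
          _ = R ^ 3 := by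
              rw [← Real.exp_add, ← Real.exp_add]
              simp
      exact ⟨hmain _ (abs_nonneg _) hq2, hmain _ (abs_nonneg _) hq3⟩
  · intro s δ hs0 hs1 hδ h
    by_contra hnot
    have hnot' := hnot
    unfold Holds at hnot'
    push Not at hnot'
    obtain ⟨ε, hε, N, hN⟩ := hnot'
    apply hnot
    -- a narrow cone, cut off at a depth which depends on the constant
    have hM : ∀ R : ℝ, ∃ M₀ : ℝ, ∀ p ∈ X87.CSD.Cone s (δ / 2) ∩ X87.CSD.Deep M₀,
        ∀ q ∈ X87.CSD.Den α β R p, ε ≤ H715R2.fL α β q → q ∈ X87.CSD.Near α s δ := by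
      intro R
      by_cases hR : 0 < R
      · exact X87.CSD.den_near hs0 hs1 hδ hR hε
      · refine ⟨0, fun p _ q hq _ => ?_⟩
        exact absurd ((abs_nonneg _).trans_lt hq.2.1)
          (not_lt.2 (mul_nonpos_of_nonpos_of_nonneg (not_lt.1 hR) (Real.exp_pos _).le))
    choose M₀ hM₀ using hM
    -- the windows: the segment number `n` is deeper than `M₀ 0, …, M₀ n`
    have hB : ∀ n : ℕ, ∃ p, X87.CSD.Seg (X87.CSD.Cone s (δ / 2) ∩ X87.CSD.Deep
        (∑ i ∈ Finset.range (n + 1), |M₀ i|)) 0 n p := fun n =>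
      X87.CSD.cone_long hs0 hs1 (by positivity) 0 _ n
    choose p hp using hB
    set W : Set (ℝ × ℝ) := {z | ∃ n : ℕ, ∃ σ : ℝ, |σ| ≤ n ∧
      z = ((p n).1 + σ * (X87.CSD.dirw 0).1, (p n).2 + σ * (X87.CSD.dirw 0).2)} with hW
    refine key 0 W (fun n => ⟨p n, (hp n).1, (hp n).2.1, fun σ hσ => ⟨n, σ, hσ, rfl⟩⟩)
      fun R => ?_
    refine Set.Subset.trans ?_ h
    rintro t ⟨h1, h2⟩
    refine ⟨h1, ?_⟩
    obtain ⟨m, hm⟩ := exists_nat_ge (max R 1)
    have hmR : R ≤ m := (le_max_left _ _).trans hm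
    -- the denominators at the first few segments are bounded
    have hev : ∀ᶠ q in atTop ⊓ 𝓟 (X87.CSD.DenW α β R W), q ∈ X87.CSD.Near α s δ := by
      rw [eventually_inf_principal]
      have hfin : ∀ n : ℕ, ∃ B : ℕ, ∀ σ : ℝ, |σ| ≤ n → ∀ q : ℕ,
          (q : ℝ) < R * Real.exp ((p n).1 + σ * (X87.CSD.dirw 0).1 +
            ((p n).2 + σ * (X87.CSD.dirw 0).2)) → q ≤ B := by
        intro n
        obtain ⟨B, hB⟩ := exists_nat_ge (|R| * Real.exp ((p n).1 + (p n).2 + 2 * n))
        refine ⟨B, fun σ hσ q hq => ?_⟩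
        have h3 : (q : ℝ) ≤ B := by
          refine hq.le.trans (le_trans ?_ hB)
          have h4 : (p n).1 + σ * (X87.CSD.dirw 0).1 + ((p n).2 + σ * (X87.CSD.dirw 0).2) ≤
              (p n).1 + (p n).2 + 2 * n := by
            simp only [X87.CSD.dirw, Matrix.cons_val_zero, mul_one]
            linarith [le_abs_self σ]
          exact mul_le_mul (le_abs_self R) (Real.exp_le_exp.2 h4) (Real.exp_pos _).le (abs_nonneg R)
        exact_mod_cast h3
      choose B hB using hfin
      filter_upwards [eventually_gt_atTop (∑ i ∈ Finset.range (m + 1), B i),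
        eventually_ge_atTop N, eventually_gt_atTop 0] with q hq1 hq2 hq3 hq
      obtain ⟨z, ⟨n, σ, hσ, rfl⟩, hzq⟩ := hq
      have hnm : m < n := by
        by_contra hcon
        have h4 : n ∈ Finset.range (m + 1) := Finset.mem_range.2 (by omega)
        have h5 : B n ≤ ∑ i ∈ Finset.range (m + 1), B i :=
          Finset.single_le_sum (f := B) (fun _ _ => Nat.zero_le _) h4
        have h6 := hB n σ hσ q hzq.1
        omega
      have hz := (hp n).2.2 σ hσ
      refine hM₀ m _ ⟨hz.1, ?_⟩ q ?_ (hN q hq2 hq3)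
      · have h4 : m ∈ Finset.range (n + 1) := Finset.mem_range.2 (by omega)
        have h5 : |M₀ m| ≤ ∑ i ∈ Finset.range (n + 1), |M₀ i| :=
          Finset.single_le_sum (f := fun i : ℕ => |M₀ i|) (fun _ _ => abs_nonneg _) h4
        have h6 := (le_abs_self (M₀ m)).trans h5
        exact ⟨h6.trans hz.2.1, h6.trans hz.2.2⟩
      · obtain ⟨h4, h5, h6⟩ := hzq
        exact ⟨h4.trans_le (mul_le_mul_of_nonneg_right hmR (Real.exp_pos _).le),
          h5.trans_le (mul_le_mul_of_nonneg_right hmR (Real.exp_pos _).le),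
          h6.trans_le (mul_le_mul_of_nonneg_right hmR (Real.exp_pos _).le)⟩
    refine h2.mono ?_
    refine le_inf inf_le_left ?_
    rw [le_principal_iff]
    exact hev

end Pool.Agent.Results.MP_0ea415_nt.ValuesAlongWindows
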